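import Mathlib
import Pool.Agent.Helper2.AC.Main

/-!
Ordered Ramsey numbers of the cube (MP_09b4c2): a colouring without a monochromatic ordered cube contains
all edge-coloured ordered graphs of small degeneracy; colourings of small VC-dimension.
-/

namespace Pool.Agent.Helper32.VC

open Finset
open Pool.Agent.Helper96.OR (Idx adj rank dens)
open Pool.Agent.Helper53.OC
open Pool.Agent.Helper2.AC

/-- the 0-1 matrix of the event that a pair has the colour which the pattern gives to its blocks -/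
noncomputable def pm {N h : ℕ} (f : Fin N → Fin N → Bool) (c : Fin h → Fin h → Bool) (s : ℕ)
    (x y : ℕ) : ℝ := by
  classical
  exact if ∃ (hx : x / s < h) (hy : y / s < h), bm f (c ⟨x / s, hx⟩ ⟨y / s, hy⟩) x y = 1 then 1 else 0

theorem pm_01 {N h : ℕ} (f : Fin N → Fin N → Bool) (c : Fin h → Fin h → Bool) (s : ℕ)
    (x y : ℕ) : pm f c s x y = 0 ∨ pm f c s x y = 1 := by
  unfold pm
  split_ifs
  · exact Or.inr rfl
  · exact Or.inl rfl

theorem div_Ico {s v x : ℕ} (hx : x ∈ Ico (v * s) ((v + 1) * s)) : x / s = v := by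
  obtain ⟨h1, h2⟩ := mem_Ico.1 hx
  exact Nat.div_eq_of_lt_le h1 h2

theorem pm_eq {N h : ℕ} (f : Fin N → Fin N → Bool) (c : Fin h → Fin h → Bool) (s : ℕ)
    (v w : Fin h) (x y : ℕ) (hx : x ∈ Ico ((v : ℕ) * s) (((v : ℕ) + 1) * s))
    (hy : y ∈ Ico ((w : ℕ) * s) (((w : ℕ) + 1) * s)) : pm f c s x y = bm f (c v w) x y := by
  have ex := div_Ico hx
  have ey := div_Ico hy
  have key : (∃ (hx : x / s < h) (hy : y / s < h),
      bm f (c ⟨x / s, hx⟩ ⟨y / s, hy⟩) x y = 1) ↔ bm f (c v w) x y = 1 := by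
    constructor
    · rintro ⟨h1, h2, h3⟩
      have e1 : (⟨x / s, h1⟩ : Fin h) = v := Fin.ext ex
      have e2 : (⟨y / s, h2⟩ : Fin h) = w := Fin.ext ey
      rwa [e1, e2] at h3
    · intro h3
      have h1 : x / s < h := by rw [ex]; exact v.2
      have h2 : y / s < h := by rw [ey]; exact w.2
      refine ⟨h1, h2, ?_⟩
      have e1 : (⟨x / s, h1⟩ : Fin h) = v := Fin.ext ex
      have e2 : (⟨y / s, h2⟩ : Fin h) = w := Fin.ext ey
      rwa [e1, e2]
  unfold pm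
  by_cases hc : bm f (c v w) x y = 1
  · rw [if_pos (key.2 hc), hc]
  · rw [if_neg fun h => hc (key.1 h)]
    exact ((bm_01 f (c v w) x y).resolve_right hc).symm

/-- greedy step for edge-coloured patterns -/
theorem cdich {h : ℕ} (E : Fin h → Fin h → Prop) (hsym : ∀ v w, E v w → E w v)
    (hirr : ∀ v, ¬ E v v) (ρ : Fin h → ℕ) (hρ : Function.Injective ρ) (D : ℕ)
    (hD : ∀ v, {w | E v w ∧ ρ w < ρ v}.ncard ≤ D) (c : Fin h → Fin h → Bool) (N : ℕ)
    (f : Fin N → Fin N → Bool) (G M : ℕ) (hG : 0 < G) (hM : 0 < M)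
    (hN : h * (h * M * G ^ D) ≤ N) :
    (∃ x : Fin h → Fin N, StrictMono x ∧ ∀ v w, v < w → E v w → f (x v) (x w) = c v w) ∨
    ∃ (β : Bool) (m : ℕ) (B C : Finset ℕ), B.card = M ∧ C.card = M ∧ (∀ x ∈ B, x < m) ∧
      (∀ y ∈ C, m ≤ y ∧ y < N) ∧ Pool.Agent.Helper96.OR.dens (bm f β) B C * G ≤ 1 := by
  rcases Nat.eq_zero_or_pos h with hh | hh
  · subst hh
    exact Or.inl ⟨fun v => v.elim0, fun v => v.elim0, fun v => v.elim0⟩
  obtain ⟨s, hs⟩ : ∃ s, s = h * M * G ^ D := ⟨_, rfl⟩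
  rw [← hs] at hN
  have hs0 : 0 < s := by rw [hs]; positivity
  have hGr : (0 : ℝ) < G := by exact_mod_cast hG
  have hδ0 : (0 : ℝ) < 1 / (G : ℝ) := by positivity
  have hδ1 : (1 : ℝ) / (G : ℝ) ≤ 1 := by
    rw [div_le_one hGr]
    exact_mod_cast hG
  have hle : ∀ v : Fin h, ((v : ℕ) + 1) * s ≤ N := fun v =>
    (Nat.mul_le_mul_right s v.2).trans hN
  rcases dgrr E hsym hirr ρ hρ D hD (pm f c s) (pm_01 f c s) s hs0 (1 / (G : ℝ)) hδ0 hδ1 with
    ⟨x, hx, hx2⟩ | ⟨v, w, hvw, B, hB, C, hC, hBs, hCs, hB0, hC0, hd⟩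
  · left
    have hxN : ∀ v, x v < N := fun v => (mem_Ico.1 (hx v)).2.trans_le (hle v)
    refine ⟨fun v => ⟨x v, hxN v⟩, fun v w hvw => ?_, fun v w hvw hE => ?_⟩
    · rw [Fin.mk_lt_mk]
      have h1 := (mem_Ico.1 (hx v)).2
      have h2 := (mem_Ico.1 (hx w)).1
      have h3 : ((v : ℕ) + 1) * s ≤ (w : ℕ) * s := Nat.mul_le_mul_right _ hvw
      omega
    · have h1 := hx2 v w hvw hE
      rw [pm_eq f c s v w _ _ (hx v) (hx w)] at h1
      exact (bm_1 f (c v w) _ _ (hxN v) (hxN w)).1 h1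
  · right
    have hdd : Pool.Agent.Helper96.OR.dens (bm f (c v w)) B C < 1 / (G : ℝ) := by
      refine lt_of_eq_of_lt ?_ hd
      unfold Pool.Agent.Helper96.OR.dens
      congr 1
      refine sum_congr rfl fun x hx => sum_congr rfl fun y hy => ?_
      exact (pm_eq f c s v w x y (hB hx) (hC hy)).symm
    have hbn : ∀ r c', 0 ≤ bm f (c v w) r c' := fun r c' => by
      rcases bm_01 f (c v w) r c' with h | h <;> rw [h]
      exact zero_le_one
    have hsz : (1 / (G : ℝ)) ^ D * s = h * M := by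
      rw [hs]
      push_cast
      rw [div_pow, one_pow]
      have : (0 : ℝ) < (G : ℝ) ^ D := by positivity
      field_simp
    have hhr : (0 : ℝ) < h := by exact_mod_cast hh
    rw [hsz] at hBs hCs
    have hB1 : M ≤ B.card := by exact_mod_cast le_of_mul_le_mul_left hBs hhr
    have hC1 : M ≤ C.card := by exact_mod_cast le_of_mul_le_mul_left hCs hhr
    obtain ⟨B', hB', C', hC', hBc, hCc, hle'⟩ := Pool.Agent.Helper96.OR.exact_size
      (bm f (c v w)) hbn B C M M hM hM hB1 hC1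
    refine ⟨c v w, (w : ℕ) * s, B', C', hBc, hCc, fun x hx => ?_, fun y hy => ?_, ?_⟩
    · have h1 := (mem_Ico.1 (hB (hB' hx))).2
      have h3 : ((v : ℕ) + 1) * s ≤ (w : ℕ) * s := Nat.mul_le_mul_right _ hvw
      omega
    · have h1 := mem_Ico.1 (hC (hC' hy))
      exact ⟨h1.1, h1.2.trans_le (hle w)⟩
    · have h3 : Pool.Agent.Helper96.OR.dens (bm f (c v w)) B' C' ≤ 1 / (G : ℝ) := hle'.trans hdd.le
      calc Pool.Agent.Helper96.OR.dens (bm f (c v w)) B' C' * (G : ℝ) ≤ 1 / (G : ℝ) * G := by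
            gcongr
        _ = 1 := by field_simp

/-- a monochromatic ordered cube -/
def Cube {d N : ℕ} (σ : Fin (2 ^ d) ≃ (Fin d → Bool)) (f : Fin N → Fin N → Bool) : Prop :=
  ∃ (b : Bool) (g : Fin (2 ^ d) → Fin N), StrictMono g ∧
    ∀ i j : Fin (2 ^ d), i < j → hammingDist (σ i) (σ j) = 1 → f (g i) (g j) = b

/-- universality, for a good ordering -/
theorem univ_good (A : ℕ) : ∃ C : ℕ, ∀ (d : ℕ), 2 ≤ d → ∀ σ, Good d σ →
    ∀ N : ℕ, 2 ^ (C * d) ≤ N → ∀ (f : Fin N → Fin N → Bool), Cube σ f ∨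
    ∀ (h D : ℕ), h ≤ 2 ^ (A * d) → d ^ D ≤ 2 ^ (A * d) → ∀ (H : SimpleGraph (Fin h))
    (ρ : Fin h → ℕ), Function.Injective ρ → (∀ v, {w | H.Adj v w ∧ ρ w < ρ v}.ncard ≤ D) →
    ∀ c : Fin h → Fin h → Bool,
      ∃ g : Fin h → Fin N, StrictMono g ∧ ∀ i j, i < j → H.Adj i j → f (g i) (g j) = c i j := by
  obtain ⟨C, K, hK, hW⟩ := thmD' thmD
  refine ⟨C + A * (K + 4), fun d hd σ hσ N hN f => ?_⟩
  rw [or_iff_not_imp_left]
  intro hno h D hh hDd H ρ hρ hD c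
  have hM0 : 0 < 2 ^ (C * d) := by positivity
  have hG : 0 < K * d ^ 2 := by positivity
  have hnum : h * (h * 2 ^ (C * d) * (K * d ^ 2) ^ D) ≤ N := by
    refine le_trans ?_ hN
    have h1 : (K * d ^ 2) ^ D ≤ 2 ^ ((K + 2) * (A * d)) := by
      have h2 : K ≤ d ^ K := (Nat.lt_two_pow_self).le.trans (Nat.pow_le_pow_left hd K)
      have h3 : K * d ^ 2 ≤ d ^ (K + 2) := by
        rw [pow_add]
        exact Nat.mul_le_mul_right _ h2
      calc (K * d ^ 2) ^ D ≤ (d ^ (K + 2)) ^ D := Nat.pow_le_pow_left h3 D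
        _ = (d ^ D) ^ (K + 2) := by rw [← pow_mul, ← pow_mul, mul_comm]
        _ ≤ (2 ^ (A * d)) ^ (K + 2) := Nat.pow_le_pow_left hDd _
        _ = 2 ^ ((K + 2) * (A * d)) := by rw [← pow_mul, mul_comm]
    calc h * (h * 2 ^ (C * d) * (K * d ^ 2) ^ D) ≤
          2 ^ (A * d) * (2 ^ (A * d) * 2 ^ (C * d) * 2 ^ ((K + 2) * (A * d))) :=
          Nat.mul_le_mul hh (Nat.mul_le_mul (Nat.mul_le_mul_right _ hh) h1)
      _ = 2 ^ ((C + A * (K + 4)) * d) := by
          rw [← pow_add, ← pow_add, ← pow_add]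
          congr 1
          ring
  rcases cdich (fun v w => H.Adj v w) (fun v w h => h.symm) (fun v => H.loopless.irrefl v) ρ hρ D hD
    c N f (K * d ^ 2) (2 ^ (C * d)) hG hM0 hnum with
    ⟨x, hx, hx2⟩ | ⟨β, m, B, C', hB, hC', hBm, hCm, hdn⟩
  · exact ⟨x, hx, hx2⟩
  · exfalso
    apply hno
    obtain ⟨r, c', hr, hc, hro, hco, hrc⟩ := hW d (by omega) _ le_rfl (bm f β) (bm_01 f β) B C' hB
      hC' (by
        push_cast at hdn
        exact hdn)
    obtain ⟨hl, φ, hi, hφ, hσ1, hσ2⟩ := hσ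
    obtain ⟨g, hg, hg1, hg2⟩ := hσ2 N m r c' (fun v => hBm _ (hr v)) (fun v => (hCm _ (hc v)).1)
      (fun v => (hCm _ (hc v)).2) hro hco
    refine ⟨!β, g, hg, fun i j hij hd1 => full_copy 2 d d hl φ σ hσ1 N f (!β) r c'
      (fun v w hvw hr' hc' => ?_) g hg1 hg2 i j hij hd1⟩
    have h3 := hrc v w (adj_ne hl hi v w hvw)
    rw [Bool.eq_not]
    intro h4
    rw [(bm_1 f β _ _ hr' hc').2 h4] at h3
    exact one_ne_zero h3

/-- the complete bipartite graph between the first `a` and the last `b` vertices -/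
def bip (a b : ℕ) : SimpleGraph (Fin (a + b)) where
  Adj v w := ((v : ℕ) < a ∧ a ≤ (w : ℕ)) ∨ ((w : ℕ) < a ∧ a ≤ (v : ℕ))
  symm := ⟨fun v w h => h.elim Or.inr Or.inl⟩
  loopless := ⟨fun v h => by rcases h with h | h <;> omega⟩

/-- the degeneracy of the complete bipartite graph is at most the size of the second side -/
theorem bip_deg (a b : ℕ) : ∃ ρ : Fin (a + b) → ℕ, Function.Injective ρ ∧
    ∀ v, {w | (bip a b).Adj v w ∧ ρ w < ρ v}.ncard ≤ b := by
  refine ⟨fun v => if (v : ℕ) < a then (v : ℕ) + b else (v : ℕ) - a, fun v w h => ?_, fun v => ?_⟩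
  · have hv := v.2
    have hw := w.2
    apply Fin.ext
    dsimp only at h
    split_ifs at h <;> omega
  · have h1 : {w | (bip a b).Adj v w ∧ (if (w : ℕ) < a then (w : ℕ) + b else (w : ℕ) - a) <
        (if (v : ℕ) < a then (v : ℕ) + b else (v : ℕ) - a)} ⊆
        Set.range (Fin.natAdd a : Fin b → Fin (a + b)) := by
      rintro w ⟨h1, h2⟩
      have hv := v.2
      have hw := w.2
      have h3 : a ≤ (w : ℕ) := by
        rcases h1 with h1 | h1
        · exact h1.2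
        · rw [if_pos h1.1, if_neg (by omega)] at h2
          omega
      exact ⟨⟨(w : ℕ) - a, by omega⟩, Fin.ext (by simp; omega)⟩
    refine (Set.ncard_le_ncard h1 (Set.toFinite _)).trans ?_
    rw [← Set.image_univ]
    refine (Set.ncard_image_le (Set.toFinite _)).trans ?_
    rw [Set.ncard_univ, Nat.card_eq_fintype_card, Fintype.card_fin]

/-- the degeneracy of the complete bipartite graph is at most the size of the first side -/
theorem bip_deg' (a b : ℕ) : ∃ ρ : Fin (a + b) → ℕ, Function.Injective ρ ∧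
    ∀ v, {w | (bip a b).Adj v w ∧ ρ w < ρ v}.ncard ≤ a := by
  refine ⟨fun v => v, fun v w h => Fin.ext h, fun v => ?_⟩
  have h1 : {w | (bip a b).Adj v w ∧ (w : ℕ) < (v : ℕ)} ⊆
      Set.range (Fin.castAdd b : Fin a → Fin (a + b)) := by
    rintro w ⟨h1, h2⟩
    have h3 : (w : ℕ) < a := by
      rcases h1 with h1 | h1
      · omega
      · exact h1.1
    exact ⟨⟨(w : ℕ), h3⟩, Fin.ext rfl⟩
  refine (Set.ncard_le_ncard h1 (Set.toFinite _)).trans ?_
  rw [← Set.image_univ]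
  refine (Set.ncard_image_le (Set.toFinite _)).trans ?_
  rw [Set.ncard_univ, Nat.card_eq_fintype_card, Fintype.card_fin]

theorem pow_bound (A d D : ℕ) (hd : 2 ≤ d) (h : d ^ D ≤ 2 ^ (A * d)) :
    2 ^ D + D ≤ 2 ^ ((A + 1) * d) := by
  have h1 : 2 ^ D ≤ d ^ D := Nat.pow_le_pow_left hd D
  have h2 : D < 2 ^ D := Nat.lt_two_pow_self
  have h3 : 2 * 2 ^ (A * d) ≤ 2 ^ ((A + 1) * d) := by
    rw [add_mul, one_mul, pow_add, mul_comm]
    refine Nat.mul_le_mul_left _ ?_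
    calc 2 = 2 ^ 1 := by norm_num
      _ ≤ 2 ^ d := Nat.pow_le_pow_right (by norm_num) (by omega)
  omega

theorem cast_lt_nat {a b : ℕ} (i : Fin a) (j : Fin b) : Fin.castAdd b i < Fin.natAdd a j := by
  have h1 : ((Fin.castAdd b i : Fin (a + b)) : ℕ) = i := rfl
  have h2 : ((Fin.natAdd a j : Fin (a + b)) : ℕ) = a + j := rfl
  have := i.2
  rw [Fin.lt_def, h1, h2]
  omega

theorem nat_lt_nat {a b : ℕ} (i j : Fin b) (h : i < j) :
    (Fin.natAdd a i : Fin (a + b)) < Fin.natAdd a j := by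
  have h1 : ((Fin.natAdd a i : Fin (a + b)) : ℕ) = a + i := rfl
  have h2 : ((Fin.natAdd a j : Fin (a + b)) : ℕ) = a + j := rfl
  rw [Fin.lt_def] at h ⊢
  rw [h1, h2]
  omega

theorem cast_lt_cast {a b : ℕ} (i j : Fin a) (h : i < j) :
    (Fin.castAdd b i : Fin (a + b)) < Fin.castAdd b j := h

theorem cast_adj {a b : ℕ} (i : Fin a) (j : Fin b) :
    (bip a b).Adj (Fin.castAdd b i) (Fin.natAdd a j) := by
  have h1 : ((Fin.castAdd b i : Fin (a + b)) : ℕ) = i := rfl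
  have h2 : ((Fin.natAdd a j : Fin (a + b)) : ℕ) = a + j := rfl
  refine Or.inl ⟨?_, ?_⟩
  · rw [h1]
    exact i.2
  · rw [h2]
    omega

/-- Universality and the bound for the VC-dimension. -/
theorem main : ∃ σ : ∀ d : ℕ, Fin (2 ^ d) ≃ (Fin d → Bool), ∀ A : ℕ, ∃ C : ℕ, ∀ d : ℕ, 2 ≤ d →
    ∀ N : ℕ, 2 ^ (C * d) ≤ N → ∀ f : Fin N → Fin N → Bool,
    (∃ (b : Bool) (g : Fin (2 ^ d) → Fin N), StrictMono g ∧
      ∀ i j : Fin (2 ^ d), i < j → hammingDist (σ d i) (σ d j) = 1 → f (g i) (g j) = b) ∨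
    ((∀ (h D : ℕ), h ≤ 2 ^ (A * d) → d ^ D ≤ 2 ^ (A * d) → ∀ (H : SimpleGraph (Fin h))
      (ρ : Fin h → ℕ), Function.Injective ρ → (∀ v, {w | H.Adj v w ∧ ρ w < ρ v}.ncard ≤ D) →
      ∀ c : Fin h → Fin h → Bool, ∃ g : Fin h → Fin N, StrictMono g ∧
        ∀ i j, i < j → H.Adj i j → f (g i) (g j) = c i j) ∧
    ∀ D : ℕ, d ^ D ≤ 2 ^ (A * d) →
      (∃ s : Fin D → Fin N, StrictMono s ∧
        ∀ T : Fin D → Bool, ∃ x : Fin N, (∀ i, x < s i) ∧ ∀ i, f x (s i) = T i) ∧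
      ∃ s : Fin D → Fin N, StrictMono s ∧
        ∀ T : Fin D → Bool, ∃ x : Fin N, (∀ i, s i < x) ∧ ∀ i, f (s i) x = T i) := by
  choose σ hσ using good_exists
  refine ⟨σ, fun A => ?_⟩
  obtain ⟨C, hC⟩ := univ_good (A + 1)
  refine ⟨C, fun d hd N hN f => ?_⟩
  rcases hC d hd (σ d) (hσ d) N hN f with h1 | h1
  · exact Or.inl h1
  · right
    have hmono : 2 ^ (A * d) ≤ 2 ^ ((A + 1) * d) :=
      Nat.pow_le_pow_right (by norm_num) (Nat.mul_le_mul_right d (Nat.le_succ A))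
    refine ⟨fun h D hh hD => h1 h D (hh.trans hmono) (hD.trans hmono), fun D hD => ?_⟩
    have hN0 : 0 < N := lt_of_lt_of_le (by positivity) hN
    obtain ⟨e⟩ : Nonempty (Fin (2 ^ D) ≃ (Fin D → Bool)) :=
      ⟨(Fintype.equivFinOfCardEq (by simp)).symm⟩
    constructor
    · obtain ⟨ρ, hρ, hρ2⟩ := bip_deg (2 ^ D) D
      obtain ⟨g, hg, hg2⟩ := h1 (2 ^ D + D) D (pow_bound A d D hd hD) (hD.trans hmono)
        (bip (2 ^ D) D) ρ hρ hρ2 (fun v w => if hv : (v : ℕ) < 2 ^ D then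
          (if hw : 2 ^ D ≤ (w : ℕ) then e ⟨v, hv⟩ ⟨(w : ℕ) - 2 ^ D, by omega⟩ else false) else false)
      refine ⟨fun i => g (Fin.natAdd (2 ^ D) i), fun i j hij => hg ?_, fun T => ?_⟩
      · exact nat_lt_nat i j hij
      · refine ⟨g (Fin.castAdd D (e.symm T)), fun i => hg ?_, fun i => ?_⟩
        · exact cast_lt_nat (e.symm T) i
        · rw [hg2 _ _ (cast_lt_nat (e.symm T) i) (cast_adj _ _)]
          simp
    · obtain ⟨ρ, hρ, hρ2⟩ := bip_deg' D (2 ^ D)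
      have hpb := pow_bound A d D hd hD
      obtain ⟨g, hg, hg2⟩ := h1 (D + 2 ^ D) D (by omega) (hD.trans hmono)
        (bip D (2 ^ D)) ρ hρ hρ2 (fun v w => if hv : (v : ℕ) < D then
          (if hw : D ≤ (w : ℕ) then e ⟨(w : ℕ) - D, by omega⟩ ⟨v, hv⟩ else false) else false)
      refine ⟨fun i => g (Fin.castAdd (2 ^ D) i), fun i j hij => hg ?_, fun T => ?_⟩
      · exact cast_lt_cast i j hij
      · refine ⟨g (Fin.natAdd D (e.symm T)), fun i => hg ?_, fun i => ?_⟩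
        · exact cast_lt_nat i (e.symm T)
        · rw [hg2 _ _ (cast_lt_nat i (e.symm T)) (cast_adj _ _)]
          simp

end Pool.Agent.Helper32.VC
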